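import Pool.Agent.Lib.MP_82a8ee_lc.Few.Sim

set_option autoImplicit false

namespace MP82a8ee.Few

open MP82a8ee

/-! Replacing columns by a wide empty strip; deleting an empty column; transposition. -/

theorem board_finite (m n : ℕ) : (board m n).Finite := by
  refine (Set.finite_Icc ((0 : ℤ), (0 : ℤ)) ((m : ℤ), (n : ℤ))).subset ?_
  rintro ⟨x, y⟩ ⟨h1, h2, h3, h4⟩
  exact ⟨⟨h1, h3⟩, ⟨le_of_lt h2, le_of_lt h4⟩⟩

theorem sim_route {m n n' kl kr : ℕ} {a b w δ : ℤ} (hm : 2 ≤ m) (ha : 0 ≤ a) (hab : a < b)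
    (hbn : b ≤ n) (hδ : δ = b - a - w) (hw : 2 * ((kl : ℤ) + kr) + 1 ≤ w)
    (hn' : (n' : ℤ) = n - δ) {l : List Dir} {s t : Position} (h : Route m n l s t) :
    ∀ s', Rel m n' kl kr a b w δ s s' → ∃ t', R m n' s' t' ∧ Rel m n' kl kr a b w δ t t' := by
  induction h with
  | nil s => exact fun s' hs => ⟨s', R.refl _ _ _, hs⟩
  | cons h1 _ ih =>
    intro s' hs
    obtain ⟨t', h2, h3⟩ := sim hm ha hab hbn hδ hw hn' hs h1
    obtain ⟨u', h4, h5⟩ := ih t' h3
    exact ⟨u', h2.trans h4, h5⟩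

/-- the map of cells when the columns from `a` to `b - 1` are replaced by `w` columns -/
def rep (a b w : ℤ) (c : ℤ × ℤ) : ℤ × ℤ := (c.1, if c.2 < a then c.2 else c.2 - (b - a) + w)

/-- Columns may be replaced by `2 k + 1` empty columns, if there are at most `k` blocks in the other
columns. -/
theorem replace_cols {m n n' k : ℕ} {a b w : ℤ} (hm : 2 ≤ m) (ha : 0 ≤ a) (hab : a < b)
    (hbn : b ≤ n) (hw : 2 * (k : ℤ) + 1 ≤ w) (hn' : (n' : ℤ) = n - (b - a) + w)
    {B : Set (ℤ × ℤ)} (hB : B ⊆ board m n) (hk : {c ∈ B | c.2 < a ∨ b ≤ c.2}.ncard ≤ k)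
    {p q : ℤ × ℤ} (hp : p ∈ board m n) (hpo : p.2 < a ∨ b ≤ p.2) (hqo : q.2 < a ∨ b ≤ q.2)
    (hs : Solvable m n B p q) :
    Solvable m n' (rep a b w '' {c ∈ B | c.2 < a ∨ b ≤ c.2}) (rep a b w p) (rep a b w q) := by
  obtain ⟨l, B', hr⟩ := hs
  have hfin0 : {c ∈ B | c.2 < a ∨ b ≤ c.2}.Finite :=
    ((board_finite m n).subset hB).subset fun c hc => hc.1
  have hfin : (rep a b w '' {c ∈ B | c.2 < a ∨ b ≤ c.2}).Finite := hfin0.image _
  have hE : ∀ c : ℤ × ℤ, (c.2 < a ∨ b ≤ c.2) → E (a + w) (b - a - w) (rep a b w c) = c := by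
    intro c hc
    apply Prod.ext
    · rfl
    · show (if (if c.2 < a then c.2 else c.2 - (b - a) + w) < a + w then
        (if c.2 < a then c.2 else c.2 - (b - a) + w) else
        (if c.2 < a then c.2 else c.2 - (b - a) + w) + (b - a - w)) = c.2
      split_ifs <;> omega
  have hout : ∀ c : ℤ × ℤ, (c.2 < a ∨ b ≤ c.2) →
      ((rep a b w c).2 < a ∨ a + w ≤ (rep a b w c).2) := by
    intro c hc
    show (if c.2 < a then c.2 else c.2 - (b - a) + w) < a ∨
      a + w ≤ (if c.2 < a then c.2 else c.2 - (b - a) + w)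
    split_ifs <;> omega
  have hbp : rep a b w p ∈ board m n' := by
    obtain ⟨b1, b2, b3, b4⟩ := hp
    refine ⟨b1, b2, ?_, ?_⟩
    · show 0 ≤ if p.2 < a then p.2 else p.2 - (b - a) + w
      split_ifs <;> omega
    · show (if p.2 < a then p.2 else p.2 - (b - a) + w) < (n' : ℤ)
      split_ifs <;> omega
  have hcard : (hfin.toFinset.filter (fun c => c.2 < a)).card +
      (hfin.toFinset.filter (fun c => ¬ c.2 < a)).card ≤ k := by
    rw [Finset.card_filter_add_card_filter_not, ← Set.ncard_eq_toFinset_card _ hfin]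
    exact (Set.ncard_image_le hfin0).trans hk
  have hinit : Rel m n' (hfin.toFinset.filter (fun c => c.2 < a)).card
      (hfin.toFinset.filter (fun c => ¬ c.2 < a)).card a b w (b - a - w) ⟨B, p⟩
      ⟨rep a b w '' {c ∈ B | c.2 < a ∨ b ≤ c.2}, rep a b w p⟩ := by
    refine ⟨hfin.toFinset, ∅, 0, 0, ⟨le_rfl, le_rfl, ?_, ?_, ?_, ?_⟩, ?_, hbp,
      Or.inl ⟨(hE p hpo).symm, hout p hpo⟩⟩
    · intro c hc
      rw [Set.Finite.mem_toFinset] at hc
      obtain ⟨c', h1, rfl⟩ := hc
      exact hout c' h1.2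
    · intro c hc
      rw [Set.Finite.mem_toFinset] at hc
      obtain ⟨c', h1, rfl⟩ := hc
      rw [hE c' h1.2]
      exact h1.1
    · intro c hc; exact absurd hc (Set.notMem_empty c)
    · intro c hc; exact absurd hc (Set.notMem_empty c)
    · rw [Set.Finite.coe_toFinset, Set.union_empty]
  obtain ⟨t', ⟨N, l', _, h2⟩, h3⟩ := sim_route hm ha hab hbn rfl (by omega) (by omega) hr _ hinit
  obtain ⟨_, _, _, _, _, _, _, hrob⟩ := h3
  obtain ⟨C, q'⟩ := t'
  rcases hrob with ⟨h4, h5⟩ | ⟨h4, h5, _, _⟩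
  · have h6 : q = E (a + w) (b - a - w) q' := h4
    have h7 : q'.2 < a ∨ a + w ≤ q'.2 := h5
    have h8 : rep a b w q = q' := by
      rw [h6]
      apply Prod.ext
      · rfl
      · show (if (if q'.2 < a + w then q'.2 else q'.2 + (b - a - w)) < a then
          (if q'.2 < a + w then q'.2 else q'.2 + (b - a - w)) else
          (if q'.2 < a + w then q'.2 else q'.2 + (b - a - w)) - (b - a) + w) = q'.2
        split_ifs <;> omega
    rw [h8]
    exact ⟨l', C, h2⟩
  · exfalso
    have h6 : a ≤ q.2 := h4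
    have h7 : q.2 < b := h5
    omega

/-- the map of cells which belongs to the deletion of the column `b` -/
def delCol (b : ℤ) (c : ℤ × ℤ) : ℤ × ℤ := (c.1, if c.2 < b then c.2 else c.2 - 1)

/-- the map of cells which belongs to the deletion of the row `b` -/
def delRow (b : ℤ) (c : ℤ × ℤ) : ℤ × ℤ := (if c.1 < b then c.1 else c.1 - 1, c.2)

/-- the columns from `b` on are shifted by one -/
def kap (b y : ℤ) : ℤ := if y < b then y else y + 1

theorem kap_mono (b : ℤ) : StrictMono (kap b) := by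
  intro x y h
  unfold kap
  split_ifs <;> omega

theorem kap_del {b : ℤ} {c : ℤ × ℤ} (h : c.2 ≠ b) : Ph id (kap b) (delCol b c) = c := by
  apply Prod.ext
  · rfl
  · show kap b (if c.2 < b then c.2 else c.2 - 1) = c.2
    unfold kap
    split_ifs <;> omega

theorem kap_image {b : ℤ} {B : Set (ℤ × ℤ)} (h : ∀ c ∈ B, c.2 ≠ b) :
    Ph id (kap b) '' (delCol b '' B) = B := by
  ext c
  constructor
  · rintro ⟨_, ⟨c', h1, rfl⟩, rfl⟩
    rw [kap_del (h c' h1)]; exact h1
  · intro hc
    exact ⟨_, ⟨c, hc, rfl⟩, kap_del (h c hc)⟩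

theorem emb_kap (m n : ℕ) (b : ℤ) : Emb m n m (n + 1) id (kap b) := by
  refine ⟨strictMono_id, kap_mono b, fun x h1 h2 => ⟨h1, h2⟩, fun x h1 h2 => ?_⟩
  unfold kap
  push_cast
  split_ifs <;> omega

/-- Deleting one of `2 k + 2` consecutive empty columns does not change solvability. -/
theorem delete_col {m n k : ℕ} {a : ℤ} (hm : 2 ≤ m) (ha : 0 ≤ a) (han : a + (2 * k + 1) ≤ n)
    {B : Set (ℤ × ℤ)} (hB : B ⊆ board m (n + 1)) (hk : B.ncard ≤ k) {p q : ℤ × ℤ}
    (hp : p ∈ board m (n + 1))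
    (h : ∀ c ∈ insert p (insert q B), c.2 < a ∨ a + (2 * k + 1) < c.2) :
    Solvable m (n + 1) B p q ↔ Solvable m n (delCol (a + (2 * k + 1)) '' B)
      (delCol (a + (2 * k + 1)) p) (delCol (a + (2 * k + 1)) q) := by
  have hpc := h p (Set.mem_insert _ _)
  have hqc := h q (Set.mem_insert_of_mem _ (Set.mem_insert _ _))
  have hBc : ∀ c ∈ B, c.2 < a ∨ a + (2 * k + 1) < c.2 := fun c hc =>
    h c (Set.mem_insert_of_mem _ (Set.mem_insert_of_mem _ hc))
  constructor
  · intro hs
    have e0 : {c ∈ B | c.2 < a ∨ a + (2 * k + 2) ≤ c.2} = B := by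
      ext c
      constructor
      · exact fun hc => hc.1
      · exact fun hc => ⟨hc, by have := hBc c hc; omega⟩
    have e1 : ∀ c : ℤ × ℤ, (c.2 < a ∨ a + (2 * k + 1) < c.2) →
        rep a (a + (2 * k + 2)) (2 * k + 1) c = delCol (a + (2 * k + 1)) c := by
      intro c hc
      apply Prod.ext
      · rfl
      · show (if c.2 < a then c.2 else c.2 - (a + (2 * k + 2) - a) + (2 * k + 1)) =
          if c.2 < a + (2 * k + 1) then c.2 else c.2 - 1
        split_ifs <;> omega
    have := replace_cols (m := m) (n := n + 1) (n' := n) (k := k) (a := a)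
      (b := a + (2 * k + 2)) (w := 2 * k + 1) hm ha (by omega) (by push_cast; omega) le_rfl
      (by push_cast; omega) hB (by rw [e0]; exact hk) hp (by omega) (by omega) hs
    rw [e0, e1 p hpc, e1 q hqc, Set.image_congr (fun c hc => e1 c (hBc c hc))] at this
    exact this
  · intro hs
    obtain ⟨b1, b2, b3, b4⟩ := hp
    have hbp : delCol (a + (2 * k + 1)) p ∈ board m n := by
      refine ⟨b1, b2, ?_, ?_⟩
      · show 0 ≤ if p.2 < a + (2 * k + 1) then p.2 else p.2 - 1
        split_ifs <;> omega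
      · show (if p.2 < a + (2 * k + 1) then p.2 else p.2 - 1) < n
        push_cast at b4
        split_ifs <;> omega
    have := ins_solvable (emb_kap m n (a + (2 * k + 1))) hbp hs
    rw [kap_image fun c hc => by have := hBc c hc; omega, kap_del (by omega),
      kap_del (by omega)] at this
    exact this

/-! transposition -/

/-- exchange rows and columns -/
def tr : Dir → Dir
  | .up => .left
  | .down => .right
  | .left => .up
  | .right => .down

theorem swap_add (c : ℤ × ℤ) (d : Dir) : (c + d.vec).swap = c.swap + (tr d).vec := by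
  cases d <;> rfl

theorem swap_board {m n : ℕ} {c : ℤ × ℤ} (h : c ∈ board m n) : c.swap ∈ board n m :=
  ⟨h.2.2.1, h.2.2.2, h.1, h.2.1⟩

theorem mem_swap {B : Set (ℤ × ℤ)} {c : ℤ × ℤ} : c.swap ∈ Prod.swap '' B ↔ c ∈ B :=
  Prod.swap_injective.mem_set_image

theorem swap_move {m n : ℕ} {d : Dir} {s t : Position} (h : Move m n d s t) :
    Move n m (tr d) ⟨Prod.swap '' s.blocks, s.robot.swap⟩
      ⟨Prod.swap '' t.blocks, t.robot.swap⟩ := by
  cases h with
  | walk B p hb hf =>
    show Move n m (tr d) ⟨Prod.swap '' B, p.swap⟩ ⟨Prod.swap '' B, (p + d.vec).swap⟩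
    rw [swap_add]
    refine Move.walk _ _ ?_ ?_
    · rw [← swap_add]; exact swap_board hb
    · rw [← swap_add, mem_swap]; exact hf
  | push B p hb hB hb' hf =>
    show Move n m (tr d) ⟨Prod.swap '' B, p.swap⟩
      ⟨Prod.swap '' (insert (p + d.vec + d.vec) (B \ {p + d.vec})), (p + d.vec).swap⟩
    rw [Set.image_insert_eq, Set.image_sdiff Prod.swap_injective, Set.image_singleton, swap_add,
      swap_add]
    refine Move.push _ _ ?_ ?_ ?_ ?_
    · rw [← swap_add]; exact swap_board hb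
    · rw [← swap_add, mem_swap]; exact hB
    · rw [← swap_add, ← swap_add]; exact swap_board hb'
    · rw [← swap_add, ← swap_add, mem_swap]; exact hf

theorem swap_route {m n : ℕ} {l : List Dir} {s t : Position} (h : Route m n l s t) :
    Route n m (l.map tr) ⟨Prod.swap '' s.blocks, s.robot.swap⟩
      ⟨Prod.swap '' t.blocks, t.robot.swap⟩ := by
  induction h with
  | nil s => exact Route.nil _
  | cons h1 _ ih => exact Route.cons (swap_move h1) ih

theorem swap_solv {m n : ℕ} {B : Set (ℤ × ℤ)} {p q : ℤ × ℤ} (h : Solvable m n B p q) :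
    Solvable n m (Prod.swap '' B) p.swap q.swap := by
  obtain ⟨l, B', h1⟩ := h
  exact ⟨_, _, swap_route h1⟩

theorem swap_swap_image (B : Set (ℤ × ℤ)) : Prod.swap '' (Prod.swap '' B) = B := by
  rw [← Set.image_comp, Prod.swap_swap_eq, Set.image_id]

theorem swap_solvable {m n : ℕ} {B : Set (ℤ × ℤ)} {p q : ℤ × ℤ} :
    Solvable m n B p q ↔ Solvable n m (Prod.swap '' B) p.swap q.swap := by
  constructor
  · exact swap_solv
  · intro h
    have := swap_solv h
    rwa [swap_swap_image, Prod.swap_swap, Prod.swap_swap] at this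

theorem delete_row {m n k : ℕ} {a : ℤ} (hn : 2 ≤ n) (ha : 0 ≤ a) (ham : a + (2 * k + 1) ≤ m)
    {B : Set (ℤ × ℤ)} (hB : B ⊆ board (m + 1) n) (hk : B.ncard ≤ k) {p q : ℤ × ℤ}
    (hp : p ∈ board (m + 1) n)
    (h : ∀ c ∈ insert p (insert q B), c.1 < a ∨ a + (2 * k + 1) < c.1) :
    Solvable (m + 1) n B p q ↔ Solvable m n (delRow (a + (2 * k + 1)) '' B)
      (delRow (a + (2 * k + 1)) p) (delRow (a + (2 * k + 1)) q) := by
  have h1 := delete_col (m := n) (n := m) (k := k) (a := a) hn ha ham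
    (B := Prod.swap '' B) (by
      rintro _ ⟨c, hc, rfl⟩
      exact swap_board (hB hc))
    (by
      rw [Set.ncard_image_of_injective _ Prod.swap_injective]; exact hk)
    (p := p.swap) (q := q.swap) (swap_board hp) (by
      intro c hc
      rcases hc with rfl | rfl | ⟨c, hc, rfl⟩
      · exact h p (Set.mem_insert _ _)
      · exact h q (Set.mem_insert_of_mem _ (Set.mem_insert _ _))
      · exact h c (Set.mem_insert_of_mem _ (Set.mem_insert_of_mem _ hc)))
  rw [swap_solvable, h1, swap_solvable (m := m) (n := n)]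
  have e : delCol (a + (2 * k + 1)) '' (Prod.swap '' B) =
      Prod.swap '' (delRow (a + (2 * k + 1)) '' B) := by
    rw [← Set.image_comp, ← Set.image_comp]
    rfl
  rw [e]
  exact Iff.rfl

end MP82a8ee.Few
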