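import Pool.Agent.Lib.MP_82a8ee_lc.Few.Lines

set_option autoImplicit false

namespace MP82a8ee.Few

open MP82a8ee

/-! Inserting empty rows and columns keeps solvability. -/

/-- the map of cells given by a map of rows and a map of columns -/
def Ph (ρ κ : ℤ → ℤ) (c : ℤ × ℤ) : ℤ × ℤ := (ρ c.1, κ c.2)

/-- the maps are strictly increasing and lead from the small board to the large board -/
structure Emb (m₀ n₀ m n : ℕ) (ρ κ : ℤ → ℤ) : Prop where
  sr : StrictMono ρ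
  sk : StrictMono κ
  br : ∀ x : ℤ, 0 ≤ x → x < m₀ → 0 ≤ ρ x ∧ ρ x < m
  bk : ∀ x : ℤ, 0 ≤ x → x < n₀ → 0 ≤ κ x ∧ κ x < n

theorem Emb.inj {m₀ n₀ m n : ℕ} {ρ κ : ℤ → ℤ} (h : Emb m₀ n₀ m n ρ κ) :
    Function.Injective (Ph ρ κ) := by
  intro c c' hc
  have h1 : ρ c.1 = ρ c'.1 := congrArg Prod.fst hc
  have h2 : κ c.2 = κ c'.2 := congrArg Prod.snd hc
  exact Prod.ext (h.sr.injective h1) (h.sk.injective h2)

theorem Emb.board {m₀ n₀ m n : ℕ} {ρ κ : ℤ → ℤ} (h : Emb m₀ n₀ m n ρ κ) {c : ℤ × ℤ}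
    (hc : c ∈ board m₀ n₀) : Ph ρ κ c ∈ board m n := by
  obtain ⟨h1, h2, h3, h4⟩ := hc
  obtain ⟨h5, h6⟩ := h.br _ h1 h2
  obtain ⟨h7, h8⟩ := h.bk _ h3 h4
  exact ⟨h5, h6, h7, h8⟩

theorem gap {f : ℤ → ℤ} (hf : StrictMono f) (x : ℤ) :
    ∃ t : ℕ, 1 ≤ t ∧ f (x + 1) = f x + t ∧ ∀ i : ℤ, 0 < i → i < t → ∀ y, f y ≠ f x + i := by
  have h1 : f x < f (x + 1) := hf (by omega)
  refine ⟨(f (x + 1) - f x).toNat, by omega, by omega, ?_⟩
  intro i h2 h3 y h4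
  have h5 : f x < f y := by omega
  have h6 : f y < f (x + 1) := by omega
  have h7 := hf.lt_iff_lt.1 h5
  have h8 := hf.lt_iff_lt.1 h6
  omega

theorem Emb.step {m₀ n₀ m n : ℕ} {ρ κ : ℤ → ℤ} (h : Emb m₀ n₀ m n ρ κ) (d : Dir) (c : ℤ × ℤ) :
    ∃ t : ℕ, 1 ≤ t ∧ Ph ρ κ (c + d.vec) = sh (Ph ρ κ c) d t ∧
      ∀ i : ℤ, 0 < i → i < t → ∀ c', Ph ρ κ c' ≠ sh (Ph ρ κ c) d i := by
  cases d with
  | up =>
    obtain ⟨t, h1, h2, h3⟩ := gap h.sr (c.1 - 1)
    have e : c.1 - 1 + 1 = c.1 := by ring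
    rw [e] at h2
    refine ⟨t, h1, ?_, ?_⟩
    · apply Prod.ext
      · show ρ (c.1 + (-1)) = ρ c.1 + t * (-1)
        have : c.1 + (-1) = c.1 - 1 := by ring
        rw [this]; omega
      · show κ (c.2 + 0) = κ c.2 + t * 0
        simp
    · intro i h4 h5 c' h6
      have h7 : ρ c'.1 = ρ c.1 + i * (-1) := congrArg Prod.fst h6
      exact h3 (t - i) (by omega) (by omega) c'.1 (by omega)
  | down =>
    obtain ⟨t, h1, h2, h3⟩ := gap h.sr c.1
    refine ⟨t, h1, ?_, ?_⟩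
    · apply Prod.ext
      · show ρ (c.1 + 1) = ρ c.1 + t * 1
        omega
      · show κ (c.2 + 0) = κ c.2 + t * 0
        simp
    · intro i h4 h5 c' h6
      have h7 : ρ c'.1 = ρ c.1 + i * 1 := congrArg Prod.fst h6
      exact h3 i h4 h5 c'.1 (by omega)
  | left =>
    obtain ⟨t, h1, h2, h3⟩ := gap h.sk (c.2 - 1)
    have e : c.2 - 1 + 1 = c.2 := by ring
    rw [e] at h2
    refine ⟨t, h1, ?_, ?_⟩
    · apply Prod.ext
      · show ρ (c.1 + 0) = ρ c.1 + t * 0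
        simp
      · show κ (c.2 + (-1)) = κ c.2 + t * (-1)
        have : c.2 + (-1) = c.2 - 1 := by ring
        rw [this]; omega
    · intro i h4 h5 c' h6
      have h7 : κ c'.2 = κ c.2 + i * (-1) := congrArg Prod.snd h6
      exact h3 (t - i) (by omega) (by omega) c'.2 (by omega)
  | right =>
    obtain ⟨t, h1, h2, h3⟩ := gap h.sk c.2
    refine ⟨t, h1, ?_, ?_⟩
    · apply Prod.ext
      · show ρ (c.1 + 0) = ρ c.1 + t * 0
        simp
      · show κ (c.2 + 1) = κ c.2 + t * 1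
        omega
    · intro i h4 h5 c' h6
      have h7 : κ c'.2 = κ c.2 + i * 1 := congrArg Prod.snd h6
      exact h3 i h4 h5 c'.2 (by omega)

theorem seg_board {m n : ℕ} {c : ℤ × ℤ} {d : Dir} {t : ℕ} (h1 : c ∈ board m n)
    (h2 : sh c d t ∈ board m n) {i : ℤ} (hi : 0 ≤ i) (hi' : i ≤ t) : sh c d i ∈ board m n := by
  obtain ⟨a1, a2, a3, a4⟩ := h1
  obtain ⟨b1, b2, b3, b4⟩ := h2
  cases d <;> simp only [sh, Dir.vec] at b1 b2 b3 b4 <;>
    exact ⟨by simp only [sh, Dir.vec]; omega, by simp only [sh, Dir.vec]; omega,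
      by simp only [sh, Dir.vec]; omega, by simp only [sh, Dir.vec]; omega⟩

theorem seg_len {m n : ℕ} {c : ℤ × ℤ} {d : Dir} {t : ℕ} (h1 : c ∈ board m n)
    (h2 : sh c d t ∈ board m n) : t ≤ m + n := by
  obtain ⟨a1, a2, a3, a4⟩ := h1
  obtain ⟨b1, b2, b3, b4⟩ := h2
  cases d <;> simp only [sh, Dir.vec] at b1 b2 b3 b4 <;> omega

/-- the image of a position -/
def PhP (ρ κ : ℤ → ℤ) (s : Position) : Position := ⟨Ph ρ κ '' s.blocks, Ph ρ κ s.robot⟩

theorem ins_move {m₀ n₀ m n : ℕ} {ρ κ : ℤ → ℤ} (h : Emb m₀ n₀ m n ρ κ) {d : Dir}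
    {s t : Position} (hs : s.robot ∈ board m₀ n₀) (hm : Move m₀ n₀ d s t) :
    RN m n (3 * (m + n)) (PhP ρ κ s) (PhP ρ κ t) ∧ t.robot ∈ board m₀ n₀ := by
  cases hm with
  | walk B p hb hf =>
    refine ⟨?_, hb⟩
    obtain ⟨t, h1, h2, h3⟩ := h.step d p
    have k1 := h.board hs
    have k2 := h.board hb
    rw [h2] at k2
    have h4 : RN m n t ⟨Ph ρ κ '' B, Ph ρ κ p⟩ ⟨Ph ρ κ '' B, sh (Ph ρ κ p) d t⟩ := by
      refine walk_line t ?_
      intro i h5 h6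
      refine ⟨seg_board k1 k2 (by omega) h6, ?_⟩
      rintro ⟨c, hc, hc'⟩
      by_cases h7 : i = t
      · rw [h7, ← h2] at hc'
        rw [h.inj hc'] at hc
        exact hf hc
      · exact h3 i (by omega) (by omega) c hc'
    rw [← h2] at h4
    exact h4.mono (by have := seg_len k1 k2; omega)
  | push B p hb hB hb' hf =>
    refine ⟨?_, hb⟩
    obtain ⟨t, h1, h2, h3⟩ := h.step d p
    obtain ⟨t', h1', h2', h3'⟩ := h.step d (p + d.vec)
    have k1 := h.board hs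
    have k2 := h.board hb
    have k3 := h.board hb'
    have l2 := k2
    rw [h2] at k2
    rw [h2'] at k3
    have e1 := seg_len k1 k2
    have e2 := seg_len l2 k3
    have w1 : RN m n (t - 1) ⟨Ph ρ κ '' B, Ph ρ κ p⟩
        ⟨Ph ρ κ '' B, sh (Ph ρ κ p) d ((t - 1 : ℕ) : ℤ)⟩ := by
      refine walk_line (t - 1) ?_
      intro i h5 h6
      refine ⟨seg_board k1 k2 (by omega) (by omega), ?_⟩
      rintro ⟨c, hc, hc'⟩
      exact h3 i (by omega) (by omega) c hc'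
    have e3 : ∀ i : ℤ, sh (sh (Ph ρ κ p) d ((t - 1 : ℕ) : ℤ)) d (1 + i) =
        sh (Ph ρ κ (p + d.vec)) d i := by
      intro i
      rw [sh_sh, h2, sh_sh]
      congr 1
      omega
    have e4 : sh (sh (Ph ρ κ p) d ((t - 1 : ℕ) : ℤ)) d 1 = Ph ρ κ (p + d.vec) := by
      have := e3 0
      rw [add_zero, sh_zero] at this
      exact this
    have w2 := push_back (m := m) (n := n) (B := Ph ρ κ '' B)
      (c := sh (Ph ρ κ p) d ((t - 1 : ℕ) : ℤ)) (d := d) t' h1' (by rw [e4]; exact l2)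
      (by rw [e4]; exact ⟨_, hB, rfl⟩) (by
        intro i h5 h6
        rw [e3]
        refine ⟨seg_board l2 k3 (by omega) h6, ?_⟩
        rintro ⟨c, hc, hc'⟩
        by_cases h7 : i = t'
        · rw [h7, ← h2'] at hc'
          rw [h.inj hc'] at hc
          exact hf hc
        · exact h3' i (by omega) (by omega) c hc')
    have e5 : sh (sh (Ph ρ κ p) d ((t - 1 : ℕ) : ℤ)) d (t' + 1) =
        Ph ρ κ (p + d.vec + d.vec) := by
      rw [add_comm (t' : ℤ) 1, e3, ← h2']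
    rw [e4, e5] at w2
    have e6 : Ph ρ κ '' (insert (p + d.vec + d.vec) (B \ {p + d.vec})) =
        insert (Ph ρ κ (p + d.vec + d.vec)) (Ph ρ κ '' B \ {Ph ρ κ (p + d.vec)}) := by
      rw [Set.image_insert_eq, Set.image_sdiff h.inj, Set.image_singleton]
    show RN m n (3 * (m + n)) ⟨Ph ρ κ '' B, Ph ρ κ p⟩
      ⟨Ph ρ κ '' (insert (p + d.vec + d.vec) (B \ {p + d.vec})), Ph ρ κ (p + d.vec)⟩
    rw [e6]
    exact (w1.trans w2).mono (by omega)

/-- inserting empty rows and columns keeps solvability; the length of the route -/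
theorem ins_route {m₀ n₀ m n : ℕ} {ρ κ : ℤ → ℤ} (h : Emb m₀ n₀ m n ρ κ) {l : List Dir}
    {s t : Position} (hr : Route m₀ n₀ l s t) (hs : s.robot ∈ board m₀ n₀) :
    RN m n (l.length * (3 * (m + n))) (PhP ρ κ s) (PhP ρ κ t) := by
  induction hr with
  | nil s => exact RN.refl _ _ _ _
  | @cons d l s t u h1 _ ih =>
    obtain ⟨h2, h3⟩ := ins_move h hs h1
    exact (h2.trans (ih h3)).mono (by rw [List.length_cons]; ring_nf; omega)

theorem ins_solvable {m₀ n₀ m n : ℕ} {ρ κ : ℤ → ℤ} (h : Emb m₀ n₀ m n ρ κ)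
    {B : Set (ℤ × ℤ)} {p q : ℤ × ℤ} (hp : p ∈ board m₀ n₀) (hs : Solvable m₀ n₀ B p q) :
    Solvable m n (Ph ρ κ '' B) (Ph ρ κ p) (Ph ρ κ q) := by
  obtain ⟨l, B', h1⟩ := hs
  obtain ⟨l', _, h2⟩ := ins_route h h1 hp
  exact ⟨l', _, h2⟩

end MP82a8ee.Few
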