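import Pool.Agent.Lib.MP_82a8ee_lc.Few.Del

set_option autoImplicit false

namespace MP82a8ee.Few

open MP82a8ee

/-! The kernel: instances with `k` blocks. -/

theorem Emb.comp {m₀ n₀ m₁ n₁ m n : ℕ} {ρ κ ρ' κ' : ℤ → ℤ} (h : Emb m₀ n₀ m₁ n₁ ρ κ)
    (h' : Emb m₁ n₁ m n ρ' κ') : Emb m₀ n₀ m n (ρ' ∘ ρ) (κ' ∘ κ) := by
  refine ⟨h'.sr.comp h.sr, h'.sk.comp h.sk, fun x h1 h2 => ?_, fun x h1 h2 => ?_⟩
  · obtain ⟨h3, h4⟩ := h.br x h1 h2
    exact h'.br _ h3 h4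
  · obtain ⟨h3, h4⟩ := h.bk x h1 h2
    exact h'.bk _ h3 h4

theorem emb_id (m n : ℕ) : Emb m n m n id id :=
  ⟨strictMono_id, strictMono_id, fun _ h1 h2 => ⟨h1, h2⟩, fun _ h1 h2 => ⟨h1, h2⟩⟩

theorem find_strip {k n : ℕ} {S : Set (ℤ × ℤ)} (hS : S.Finite) (hc : S.ncard ≤ k + 2)
    (hn : (k + 3) * (2 * k + 2) ≤ n) :
    ∃ a : ℤ, 0 ≤ a ∧ a + (2 * k + 2) ≤ n ∧ ∀ c ∈ S, c.2 < a ∨ a + (2 * k + 1) < c.2 := by
  by_contra hcon
  push Not at hcon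
  have h1 : ∀ j : ℕ, ∃ c : ℤ × ℤ, j < k + 3 → c ∈ S ∧ (j : ℤ) * (2 * k + 2) ≤ c.2 ∧
      c.2 < ((j : ℤ) + 1) * (2 * k + 2) := by
    intro j
    by_cases hj : j < k + 3
    · have h2 : (j + 1) * (2 * k + 2) ≤ n := le_trans (Nat.mul_le_mul_right _ hj) hn
      have h3 : ((j : ℤ) + 1) * (2 * k + 2) ≤ n := by exact_mod_cast h2
      have h4 : (0 : ℤ) ≤ (j : ℤ) * (2 * k + 2) := by positivity
      obtain ⟨c, hc1, hc2, hc3⟩ := hcon ((j : ℤ) * (2 * k + 2)) h4 (by linarith)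
      exact ⟨c, fun _ => ⟨hc1, hc2, by linarith⟩⟩
    · exact ⟨0, fun h => absurd h hj⟩
  choose f hf using h1
  have h2 : hS.toFinset.card < (Finset.range (k + 3)).card := by
    rw [← Set.ncard_eq_toFinset_card _ hS, Finset.card_range]; omega
  obtain ⟨i, hi, j, hj, hij, he⟩ := Finset.exists_ne_map_eq_of_card_lt_of_maps_to h2
    (f := f) (fun i hi => by
      rw [Finset.mem_coe, Finset.mem_range] at hi
      rw [Finset.mem_coe, Set.Finite.mem_toFinset]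
      exact (hf i hi).1)
  rw [Finset.mem_range] at hi hj
  obtain ⟨_, a1, a2⟩ := hf i hi
  obtain ⟨_, b1, b2⟩ := hf j hj
  rw [← he] at b1 b2
  rcases lt_or_gt_of_ne hij with h | h
  · have : ((i : ℤ) + 1) * (2 * k + 2) ≤ (j : ℤ) * (2 * k + 2) :=
      mul_le_mul_of_nonneg_right (by omega) (by positivity)
    omega
  · have : ((j : ℤ) + 1) * (2 * k + 2) ≤ (i : ℤ) * (2 * k + 2) :=
      mul_le_mul_of_nonneg_right (by omega) (by positivity)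
    omega

theorem delCol_board {m n : ℕ} {b : ℤ} {c : ℤ × ℤ} (hb : 0 ≤ b) (hbn : b ≤ n)
    (h : c ∈ board m (n + 1)) (hc : c.2 ≠ b) : delCol b c ∈ board m n := by
  obtain ⟨b1, b2, b3, b4⟩ := h
  push_cast at b4
  refine ⟨b1, b2, ?_, ?_⟩
  · show 0 ≤ if c.2 < b then c.2 else c.2 - 1
    split_ifs <;> omega
  · show (if c.2 < b then c.2 else c.2 - 1) < (n : ℤ)
    split_ifs <;> omega

theorem colred (k m : ℕ) (hm : 2 ≤ m) : ∀ n : ℕ, 2 ≤ n → ∀ (B : Set (ℤ × ℤ)) (p q : ℤ × ℤ),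
    B ⊆ board m n → B.ncard ≤ k → p ∈ board m n → q ∈ board m n →
    ∃ (n₀ : ℕ) (κ : ℤ → ℤ) (B₀ : Set (ℤ × ℤ)) (p₀ q₀ : ℤ × ℤ), 2 ≤ n₀ ∧
      n₀ < (k + 3) * (2 * k + 2) ∧ Emb m n₀ m n id κ ∧ B₀ ⊆ board m n₀ ∧ B₀.ncard ≤ k ∧
      p₀ ∈ board m n₀ ∧ q₀ ∈ board m n₀ ∧ B = Ph id κ '' B₀ ∧ p = Ph id κ p₀ ∧
      q = Ph id κ q₀ ∧ (Solvable m n B p q ↔ Solvable m n₀ B₀ p₀ q₀) := by
  intro n
  induction n with
  | zero => intro h; omega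
  | succ n ih =>
    intro hn B p q hB hk hp hq
    by_cases hlt : n + 1 < (k + 3) * (2 * k + 2)
    · refine ⟨n + 1, id, B, p, q, hn, hlt, emb_id _ _, hB, hk, hp, hq, ?_, rfl, rfl, Iff.rfl⟩
      have : Ph id id = id := rfl
      rw [this, Set.image_id]
    · have hfin : B.Finite := (board_finite _ _).subset hB
      obtain ⟨a, ha, han, hstrip⟩ := find_strip (k := k) (n := n + 1) (S := insert p (insert q B))
        ((hfin.insert q).insert p) (by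
          have h1 := Set.ncard_insert_le p (insert q B)
          have h2 := Set.ncard_insert_le q B
          omega) (by omega)
      push_cast at han
      have hb1 : ∀ c ∈ insert p (insert q B), c.2 ≠ a + (2 * k + 1) := fun c hc => by
        have := hstrip c hc; omega
      have hB1 : ∀ c ∈ B, c.2 ≠ a + (2 * k + 1) := fun c hc =>
        hb1 c (Set.mem_insert_of_mem _ (Set.mem_insert_of_mem _ hc))
      have hiff := delete_col (m := m) (n := n) (k := k) (a := a) hm ha (by omega) hB hk hp hstrip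
      have hn5 : 6 ≤ (k + 3) * (2 * k + 2) := by
        have : 3 * 2 ≤ (k + 3) * (2 * k + 2) := Nat.mul_le_mul (by omega) (by omega)
        omega
      obtain ⟨n₀, κ, B₀, p₀, q₀, g1, g2, g3, g4, g5, g6, g7, g8, g9, g10, g11⟩ := ih (by omega)
        (delCol (a + (2 * k + 1)) '' B) (delCol (a + (2 * k + 1)) p)
        (delCol (a + (2 * k + 1)) q) (by
          rintro _ ⟨c, hc, rfl⟩
          exact delCol_board (by omega) (by omega) (hB hc) (hB1 c hc))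
        ((Set.ncard_image_le hfin).trans hk)
        (delCol_board (by omega) (by omega) hp (hb1 p (Set.mem_insert _ _)))
        (delCol_board (by omega) (by omega) hq
          (hb1 q (Set.mem_insert_of_mem _ (Set.mem_insert _ _))))
      refine ⟨n₀, kap (a + (2 * k + 1)) ∘ κ, B₀, p₀, q₀, g1, g2,
        g3.comp (emb_kap m n (a + (2 * k + 1))), g4, g5, g6, g7, ?_, ?_, ?_, hiff.trans g11⟩
      · have h1 := kap_image hB1
        rw [g8, ← Set.image_comp] at h1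
        exact h1.symm
      · have h1 := kap_del (hb1 p (Set.mem_insert _ _))
        rw [g9] at h1
        exact h1.symm
      · have h1 := kap_del (hb1 q (Set.mem_insert_of_mem _ (Set.mem_insert _ _)))
        rw [g10] at h1
        exact h1.symm

theorem swap_Ph (ρ κ : ℤ → ℤ) (c : ℤ × ℤ) : (Ph ρ κ c).swap = Ph κ ρ c.swap := rfl

/-- the kernel -/
theorem kernel (k : ℕ) {m n : ℕ} (hm : 2 ≤ m) (hn : 2 ≤ n) {B : Set (ℤ × ℤ)} {p q : ℤ × ℤ}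
    (hB : B ⊆ board m n) (hk : B.ncard ≤ k) (hp : p ∈ board m n) (hq : q ∈ board m n) :
    ∃ (m₀ n₀ : ℕ) (ρ κ : ℤ → ℤ) (B₀ : Set (ℤ × ℤ)) (p₀ q₀ : ℤ × ℤ),
      m₀ < (k + 3) * (2 * k + 2) ∧ n₀ < (k + 3) * (2 * k + 2) ∧ Emb m₀ n₀ m n ρ κ ∧
      B₀ ⊆ board m₀ n₀ ∧ p₀ ∈ board m₀ n₀ ∧ q₀ ∈ board m₀ n₀ ∧ B = Ph ρ κ '' B₀ ∧
      p = Ph ρ κ p₀ ∧ q = Ph ρ κ q₀ ∧ (Solvable m n B p q ↔ Solvable m₀ n₀ B₀ p₀ q₀) := by
  obtain ⟨n₀, κ, B₁, p₁, q₁, g1, g2, g3, g4, g5, g6, g7, g8, g9, g10, g11⟩ :=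
    colred k m hm n hn B p q hB hk hp hq
  obtain ⟨m₀, ρ, B₂, p₂, q₂, f1, f2, f3, f4, f5, f6, f7, f8, f9, f10, f11⟩ :=
    colred k n₀ g1 m hm (Prod.swap '' B₁) p₁.swap q₁.swap (by
      rintro _ ⟨c, hc, rfl⟩
      exact swap_board (g4 hc)) (by
        rw [Set.ncard_image_of_injective _ Prod.swap_injective]; exact g5)
      (swap_board g6) (swap_board g7)
  have f3' : Emb m₀ n₀ m n₀ ρ id := ⟨f3.sk, strictMono_id, f3.bk, fun x h1 h2 => ⟨h1, h2⟩⟩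
  have h1 : Emb m₀ n₀ m n ρ κ := f3'.comp g3
  have e1 : ∀ c : ℤ × ℤ, Ph id κ (Ph id ρ c).swap = Ph ρ κ c.swap := fun c => rfl
  refine ⟨m₀, n₀, ρ, κ, Prod.swap '' B₂, p₂.swap, q₂.swap, f2, g2, h1, ?_, swap_board f6,
    swap_board f7, ?_, ?_, ?_, ?_⟩
  · rintro _ ⟨c, hc, rfl⟩
    exact swap_board (f4 hc)
  · have h2 : B₁ = Prod.swap '' (Ph id ρ '' B₂) := by rw [← f8, swap_swap_image]
    rw [g8, h2, ← Set.image_comp, ← Set.image_comp, ← Set.image_comp]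
    rfl
  · have h2 : p₁ = (Ph id ρ p₂).swap := by rw [← f9, Prod.swap_swap]
    rw [g9, h2]
    rfl
  · have h2 : q₁ = (Ph id ρ q₂).swap := by rw [← f10, Prod.swap_swap]
    rw [g10, h2]
    rfl
  · rw [g11, swap_solvable, f11, swap_solvable]

theorem bounded_len (K : ℕ) : ∃ N : ℕ, ∀ (m n : ℕ) (B : Set (ℤ × ℤ)) (p q : ℤ × ℤ), m < K →
    n < K → B ⊆ board m n → p ∈ board m n → q ∈ board m n → Solvable m n B p q →
    ∃ (l : List Dir) (B' : Set (ℤ × ℤ)), l.length ≤ N ∧ Route m n l ⟨B, p⟩ ⟨B', q⟩ := by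
  have hmono : ∀ m n : ℕ, m < K → n < K → board m n ⊆ board K K := by
    rintro m n h1 h2 c ⟨a1, a2, a3, a4⟩
    exact ⟨a1, by omega, a3, by omega⟩
  have hT : ((Set.Iio K) ×ˢ ((Set.Iio K) ×ˢ ({B : Set (ℤ × ℤ) | B ⊆ board K K} ×ˢ
      (board K K ×ˢ board K K)))).Finite :=
    (Set.finite_Iio K).prod ((Set.finite_Iio K).prod ((board_finite K K).finite_subsets.prod
      ((board_finite K K).prod (board_finite K K))))
  have h1 : ∀ x : ℕ × ℕ × Set (ℤ × ℤ) × (ℤ × ℤ) × (ℤ × ℤ), ∃ N : ℕ,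
      Solvable x.1 x.2.1 x.2.2.1 x.2.2.2.1 x.2.2.2.2 →
      ∃ (l : List Dir) (B' : Set (ℤ × ℤ)), l.length ≤ N ∧
        Route x.1 x.2.1 l ⟨x.2.2.1, x.2.2.2.1⟩ ⟨B', x.2.2.2.2⟩ := by
    intro x
    by_cases h : Solvable x.1 x.2.1 x.2.2.1 x.2.2.2.1 x.2.2.2.2
    · obtain ⟨l, B', hl⟩ := h
      exact ⟨l.length, fun _ => ⟨l, B', le_rfl, hl⟩⟩
    · exact ⟨0, fun h' => absurd h' h⟩
  choose f hf using h1
  obtain ⟨N, hN⟩ := (hT.image f).bddAbove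
  refine ⟨N, fun m n B p q hm hn hB hp hq hs => ?_⟩
  obtain ⟨l, B', h2, h3⟩ := hf (m, n, B, p, q) hs
  refine ⟨l, B', h2.trans (hN ⟨(m, n, B, p, q), ⟨hm, hn, ?_, ?_, ?_⟩, rfl⟩), h3⟩
  · exact fun c hc => hmono m n hm hn (hB hc)
  · exact hmono m n hm hn hp
  · exact hmono m n hm hn hq

/-- short solutions -/
theorem short (k : ℕ) : ∃ C : ℕ, ∀ (m n : ℕ) (B : Set (ℤ × ℤ)) (p q : ℤ × ℤ), 2 ≤ m → 2 ≤ n →
    B ⊆ board m n → B.ncard ≤ k → p ∈ board m n → q ∈ board m n → Solvable m n B p q →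
    ∃ (l : List Dir) (B' : Set (ℤ × ℤ)), l.length ≤ C * (m + n) ∧
      Route m n l ⟨B, p⟩ ⟨B', q⟩ := by
  obtain ⟨N, hN⟩ := bounded_len ((k + 3) * (2 * k + 2))
  refine ⟨3 * N, fun m n B p q hm hn hB hk hp hq hs => ?_⟩
  obtain ⟨m₀, n₀, ρ, κ, B₀, p₀, q₀, g1, g2, g3, g4, g5, g6, g7, g8, g9, g10⟩ :=
    kernel k hm hn hB hk hp hq
  obtain ⟨l, B', h1, h2⟩ := hN m₀ n₀ B₀ p₀ q₀ g1 g2 g4 g5 g6 (g10.1 hs)
  obtain ⟨l', h3, h4⟩ := ins_route g3 h2 g5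
  refine ⟨l', Ph ρ κ '' B', ?_, ?_⟩
  · calc l'.length ≤ l.length * (3 * (m + n)) := h3
      _ ≤ N * (3 * (m + n)) := Nat.mul_le_mul_right _ h1
      _ = 3 * N * (m + n) := by ring
  · rw [g7, g8, g9]
    exact h4

end MP82a8ee.Few
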