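import Pool.Agent.Lib.MP_82a8ee_lc.Defs

set_option autoImplicit false

namespace MP82a8ee.Few

open MP82a8ee

/-! Moves along straight lines. -/

theorem route_append {m n : ℕ} {l l' : List Dir} {s t u : Position} (h : Route m n l s t)
    (h' : Route m n l' t u) : Route m n (l ++ l') s u := by
  induction h with
  | nil s => exact h'
  | cons h1 _ ih => exact Route.cons h1 (ih h')

/-- `t` can be reached from `s` by at most `N` moves -/
def RN (m n N : ℕ) (s t : Position) : Prop := ∃ l : List Dir, l.length ≤ N ∧ Route m n l s t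

theorem RN.refl (m n N : ℕ) (s : Position) : RN m n N s s := ⟨[], Nat.zero_le _, Route.nil s⟩

theorem RN.trans {m n N N' : ℕ} {s t u : Position} (h : RN m n N s t) (h' : RN m n N' t u) :
    RN m n (N + N') s u := by
  obtain ⟨l, h1, h2⟩ := h
  obtain ⟨l', h3, h4⟩ := h'
  exact ⟨l ++ l', by rw [List.length_append]; omega, route_append h2 h4⟩

theorem RN.mono {m n N N' : ℕ} {s t : Position} (h : RN m n N s t) (h' : N ≤ N') :
    RN m n N' s t := by
  obtain ⟨l, h1, h2⟩ := h
  exact ⟨l, h1.trans h', h2⟩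

theorem RN.one {m n : ℕ} {d : Dir} {s t : Position} (h : Move m n d s t) : RN m n 1 s t :=
  ⟨[d], le_rfl, Route.cons h (Route.nil t)⟩

/-- `t` can be reached from `s` -/
def R (m n : ℕ) (s t : Position) : Prop := ∃ N, RN m n N s t

theorem R.refl (m n : ℕ) (s : Position) : R m n s s := ⟨0, RN.refl m n 0 s⟩

theorem R.trans {m n : ℕ} {s t u : Position} (h : R m n s t) (h' : R m n t u) : R m n s u := by
  obtain ⟨N, h⟩ := h
  obtain ⟨N', h'⟩ := h'
  exact ⟨N + N', h.trans h'⟩

theorem R.one {m n : ℕ} {d : Dir} {s t : Position} (h : Move m n d s t) : R m n s t :=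
  ⟨1, RN.one h⟩

/-- the cell at distance `t` from `c` in direction `d` -/
def sh (c : ℤ × ℤ) (d : Dir) (t : ℤ) : ℤ × ℤ := (c.1 + t * d.vec.1, c.2 + t * d.vec.2)

theorem sh_zero (c : ℤ × ℤ) (d : Dir) : sh c d 0 = c := by simp [sh]

theorem sh_succ (c : ℤ × ℤ) (d : Dir) (t : ℤ) : sh c d t + d.vec = sh c d (t + 1) := by
  apply Prod.ext
  · show c.1 + t * d.vec.1 + d.vec.1 = c.1 + (t + 1) * d.vec.1; ring
  · show c.2 + t * d.vec.2 + d.vec.2 = c.2 + (t + 1) * d.vec.2; ring

theorem sh_one (c : ℤ × ℤ) (d : Dir) : sh c d 1 = c + d.vec := by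
  have := sh_succ c d 0
  rw [sh_zero, zero_add] at this
  exact this.symm

theorem sh_inj {c : ℤ × ℤ} {d : Dir} {s t : ℤ} (h : sh c d s = sh c d t) : s = t := by
  have h1 := congrArg Prod.fst h
  have h2 := congrArg Prod.snd h
  cases d <;> simp only [sh, Dir.vec] at h1 h2 <;> omega

/-- the opposite direction -/
def opp : Dir → Dir
  | .up => .down
  | .down => .up
  | .left => .right
  | .right => .left

theorem sh_opp (c : ℤ × ℤ) (d : Dir) (s t : ℤ) : sh (sh c d s) (opp d) t = sh c d (s - t) := by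
  apply Prod.ext <;> cases d <;> simp only [sh, Dir.vec, opp] <;> ring

theorem sh_sh (c : ℤ × ℤ) (d : Dir) (s t : ℤ) : sh (sh c d s) d t = sh c d (s + t) := by
  apply Prod.ext <;> cases d <;> simp only [sh, Dir.vec] <;> ring

theorem walk_line {m n : ℕ} {B : Set (ℤ × ℤ)} {c : ℤ × ℤ} {d : Dir} (t : ℕ)
    (h : ∀ i : ℤ, 1 ≤ i → i ≤ t → sh c d i ∈ board m n ∧ sh c d i ∉ B) :
    RN m n t ⟨B, c⟩ ⟨B, sh c d t⟩ := by
  induction t with
  | zero =>
    have e : sh c d ((0 : ℕ) : ℤ) = c := sh_zero c d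
    rw [e]; exact RN.refl _ _ _ _
  | succ t ih =>
    have h1 := ih (fun i h1 h2 => h i h1 (by push_cast; omega))
    obtain ⟨h2, h3⟩ := h (t + 1) (by omega) (by push_cast; omega)
    have h4 : Move m n d ⟨B, sh c d t⟩ ⟨B, sh c d t + d.vec⟩ :=
      Move.walk B (sh c d t) (by rw [sh_succ]; exact h2) (by rw [sh_succ]; exact h3)
    rw [sh_succ] at h4
    have h5 := h1.trans (RN.one h4)
    push_cast
    exact h5

theorem push_line {m n : ℕ} {B : Set (ℤ × ℤ)} {c : ℤ × ℤ} {d : Dir} (t : ℕ)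
    (hb : sh c d 1 ∈ board m n) (hB : sh c d 1 ∈ B)
    (h : ∀ i : ℤ, 1 ≤ i → i ≤ t → sh c d (1 + i) ∈ board m n ∧ sh c d (1 + i) ∉ B) :
    RN m n t ⟨B, c⟩ ⟨insert (sh c d (t + 1)) (B \ {sh c d 1}), sh c d t⟩ := by
  induction t with
  | zero =>
    have e : sh c d ((0 : ℕ) : ℤ) = c := sh_zero c d
    have e2 : ((0 : ℕ) : ℤ) + 1 = 1 := by norm_num
    rw [e, e2, Set.insert_sdiff_singleton, Set.insert_eq_of_mem hB]
    exact RN.refl _ _ _ _
  | succ t ih =>
    have h1 := ih (fun i h1 h2 => h i h1 (by push_cast; omega))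
    obtain ⟨h2, h3⟩ := h (t + 1) (by omega) (by push_cast; omega)
    have e1 : (1 : ℤ) + (t + 1) = t + 1 + 1 := by ring
    rw [e1] at h2 h3
    have hin : sh c d (t + 1) ∈ insert (sh c d (t + 1)) (B \ {sh c d 1}) := Set.mem_insert _ _
    have hbo : sh c d (t + 1) ∈ board m n := by
      by_cases ht : (t : ℤ) = 0
      · rw [ht, zero_add]; exact hb
      · have := (h t (by omega) (by push_cast; omega)).1
        rw [add_comm] at this; exact this
    have hnot : sh c d (t + 1) ∉ B \ {sh c d 1} := by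
      rintro ⟨h4, h5⟩
      by_cases ht : (t : ℤ) = 0
      · rw [ht, zero_add] at h5; exact h5 rfl
      · have := (h t (by omega) (by push_cast; omega)).2
        rw [add_comm] at this; exact this h4
    have h4 : Move m n d ⟨insert (sh c d (t + 1)) (B \ {sh c d 1}), sh c d t⟩
        ⟨insert (sh c d t + d.vec + d.vec)
          (insert (sh c d (t + 1)) (B \ {sh c d 1}) \ {sh c d t + d.vec}), sh c d t + d.vec⟩ := by
      refine Move.push _ (sh c d t) ?_ ?_ ?_ ?_
      · rw [sh_succ]; exact hbo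
      · rw [sh_succ]; exact hin
      · rw [sh_succ, sh_succ]; exact h2
      · rw [sh_succ, sh_succ]
        rintro (h6 | h6)
        · have := sh_inj h6; omega
        · exact h3 h6.1
    rw [sh_succ, sh_succ, Set.insert_sdiff_self_of_notMem hnot] at h4
    have h5 := h1.trans (RN.one h4)
    push_cast
    exact h5

/-- push a block by `t` cells and come back to its former cell -/
theorem push_back {m n : ℕ} {B : Set (ℤ × ℤ)} {c : ℤ × ℤ} {d : Dir} (t : ℕ) (ht : 1 ≤ t)
    (hb : sh c d 1 ∈ board m n) (hB : sh c d 1 ∈ B)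
    (h : ∀ i : ℤ, 1 ≤ i → i ≤ t → sh c d (1 + i) ∈ board m n ∧ sh c d (1 + i) ∉ B) :
    RN m n (2 * t) ⟨B, c⟩ ⟨insert (sh c d (t + 1)) (B \ {sh c d 1}), sh c d 1⟩ := by
  have h1 := push_line t hb hB h
  have h2 : RN m n (t - 1) ⟨insert (sh c d (t + 1)) (B \ {sh c d 1}), sh c d t⟩
      ⟨insert (sh c d (t + 1)) (B \ {sh c d 1}), sh (sh c d t) (opp d) ((t - 1 : ℕ) : ℤ)⟩ := by
    refine walk_line (t - 1) ?_
    intro i h3 h4
    rw [sh_opp]
    have h5 : (i : ℤ) ≤ t - 1 := by omega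
    by_cases h6 : (t : ℤ) - i = 1
    · rw [h6]
      refine ⟨hb, ?_⟩
      rintro (h7 | h7)
      · have := sh_inj h7; omega
      · exact h7.2 rfl
    · have h7 := h (t - i - 1) (by omega) (by omega)
      have e : (1 : ℤ) + (t - i - 1) = t - i := by ring
      rw [e] at h7
      refine ⟨h7.1, ?_⟩
      rintro (h8 | h8)
      · have := sh_inj h8; omega
      · exact h7.2 h8.1
  have e : sh (sh c d t) (opp d) ((t - 1 : ℕ) : ℤ) = sh c d 1 := by
    rw [sh_opp]
    congr 1
    omega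
  rw [e] at h2
  exact (h1.trans h2).mono (by omega)

end MP82a8ee.Few
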