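import Pool.Agent.Lib.MP_82a8ee_lc.Few.Insert

set_option autoImplicit false

namespace MP82a8ee.Few

open MP82a8ee

/-! A wide empty strip of columns absorbs blocks: it is at least as good as any other columns. -/

/-- the map of cells: the columns from `b` on are shifted by `δ` -/
def E (b δ : ℤ) (c : ℤ × ℤ) : ℤ × ℤ := (c.1, if c.2 < b then c.2 else c.2 + δ)

/-- active blocks `A`, parked blocks `P` (`l` from the left, `r` from the right) of the board in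
which the columns have been replaced by a strip of `w` empty columns from `a` on, for the blocks `B`
of the original board -/
structure Cfg (kl kr : ℕ) (a w δ : ℤ) (A : Finset (ℤ × ℤ)) (P : Set (ℤ × ℤ)) (l r : ℕ)
    (B : Set (ℤ × ℤ)) : Prop where
  cl : (A.filter (fun c => c.2 < a)).card + l ≤ kl
  cr : (A.filter (fun c => ¬ c.2 < a)).card + r ≤ kr
  out : ∀ c ∈ A, c.2 < a ∨ a + w ≤ c.2
  sub : ∀ c ∈ A, E (a + w) δ c ∈ B
  col : ∀ c ∈ P, ∃ j : ℤ, (kl : ℤ) - l < j ∧ j ≤ kl + r ∧ c.2 = a + 2 * j - 1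
  uni : ∀ c ∈ P, ∀ c' ∈ P, c.2 = c'.2 → c = c'

section

variable {m n' kl kr : ℕ} {a w δ : ℤ} {A : Finset (ℤ × ℤ)} {P : Set (ℤ × ℤ)} {l r : ℕ}
  {B : Set (ℤ × ℤ)}

theorem Cfg.strip (h : Cfg kl kr a w δ A P l r B) (hw : 2 * ((kl : ℤ) + kr) + 1 ≤ w) {c : ℤ × ℤ}
    (hc : c ∈ P) : a + 1 ≤ c.2 ∧ c.2 ≤ a + w - 2 := by
  obtain ⟨j, h1, h2, h3⟩ := h.col c hc
  have := h.cl
  have := h.cr
  omega

theorem Cfg.inP (h : Cfg kl kr a w δ A P l r B) {c : ℤ × ℤ} (hc : c ∈ (A : Set (ℤ × ℤ)) ∪ P)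
    (h1 : a ≤ c.2) (h2 : c.2 < a + w) : c ∈ P := by
  rcases hc with hc | hc
  · have := h.out c hc; omega
  · exact hc

theorem Cfg.inA (h : Cfg kl kr a w δ A P l r B) (hw : 2 * ((kl : ℤ) + kr) + 1 ≤ w) {c : ℤ × ℤ}
    (hc : c ∈ (A : Set (ℤ × ℤ)) ∪ P) (h1 : c.2 < a ∨ a + w ≤ c.2) : c ∈ A := by
  rcases hc with hc | hc
  · exact hc
  · have := h.strip hw hc; omega

theorem vert {C : Set (ℤ × ℤ)} {i j y : ℤ} (hC : ∀ c ∈ C, c.2 ≠ y) (hi : 0 ≤ i) (hi' : i < m)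
    (hj : 0 ≤ j) (hj' : j < m) (hy : 0 ≤ y) (hy' : y < n') :
    R m n' ⟨C, (i, y)⟩ ⟨C, (j, y)⟩ := by
  rcases le_total i j with h | h
  · refine ⟨(j - i).toNat, ?_⟩
    have := walk_line (m := m) (n := n') (B := C) (c := (i, y)) (d := Dir.down) (j - i).toNat (by
      intro s h1 h2
      refine ⟨⟨?_, ?_, ?_, ?_⟩, fun h3 => hC _ h3 ?_⟩ <;> simp only [sh, Dir.vec] <;> omega)
    have e : sh (i, y) Dir.down ((j - i).toNat : ℤ) = (j, y) := by
      apply Prod.ext <;> simp only [sh, Dir.vec] <;> omega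
    rwa [e] at this
  · refine ⟨(i - j).toNat, ?_⟩
    have := walk_line (m := m) (n := n') (B := C) (c := (i, y)) (d := Dir.up) (i - j).toNat (by
      intro s h1 h2
      refine ⟨⟨?_, ?_, ?_, ?_⟩, fun h3 => hC _ h3 ?_⟩ <;> simp only [sh, Dir.vec] <;> omega)
    have e : sh (i, y) Dir.up ((i - j).toNat : ℤ) = (j, y) := by
      apply Prod.ext <;> simp only [sh, Dir.vec] <;> omega
    rwa [e] at this

theorem hor {C : Set (ℤ × ℤ)} {i y z : ℤ} (hz : z = y + 1 ∨ y = z + 1) (hC : (i, z) ∉ C)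
    (hi : 0 ≤ i) (hi' : i < m) (hy : 0 ≤ z) (hy' : z < n') :
    R m n' ⟨C, (i, y)⟩ ⟨C, (i, z)⟩ := by
  rcases hz with rfl | rfl
  · have e : ((i, y) : ℤ × ℤ) + Dir.right.vec = (i, y + 1) := by
      apply Prod.ext <;> simp [Dir.vec]
    have := Move.walk (m := m) (n := n') (d := Dir.right) C (i, y)
      (by rw [e]; exact ⟨hi, hi', hy, hy'⟩) (by rw [e]; exact hC)
    rw [e] at this
    exact R.one this
  · have e : ((i, z + 1) : ℤ × ℤ) + Dir.left.vec = (i, z) := by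
      apply Prod.ext <;> simp [Dir.vec]
    have := Move.walk (m := m) (n := n') (d := Dir.left) C (i, z + 1)
      (by rw [e]; exact ⟨hi, hi', hy, hy'⟩) (by rw [e]; exact hC)
    rw [e] at this
    exact R.one this

theorem Cfg.emp_or (h : Cfg kl kr a w δ A P l r B) {y z : ℤ} (hy : a ≤ y) (hy' : y < a + w)
    (hz : a ≤ z) (hz' : z < a + w) (hyz : z = y + 1 ∨ y = z + 1) :
    (∀ c ∈ (A : Set (ℤ × ℤ)) ∪ P, c.2 ≠ y) ∨ (∀ c ∈ (A : Set (ℤ × ℤ)) ∪ P, c.2 ≠ z) := by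
  by_contra hh
  rw [not_or] at hh
  obtain ⟨h1, h2⟩ := hh
  simp only [not_forall, not_not] at h1 h2
  obtain ⟨c, hc, e1⟩ := h1
  obtain ⟨c', hc', e2⟩ := h2
  have k1 := h.inP hc (by omega) (by omega)
  have k2 := h.inP hc' (by omega) (by omega)
  obtain ⟨j, _, _, h3⟩ := h.col c k1
  obtain ⟨j', _, _, h4⟩ := h.col c' k2
  omega

theorem Cfg.adj (h : Cfg kl kr a w δ A P l r B) (ha : 0 ≤ a) (haw : a + w ≤ n') {i j y z : ℤ}
    (hy : a ≤ y) (hy' : y < a + w) (hz : a ≤ z) (hz' : z < a + w) (hyz : z = y + 1 ∨ y = z + 1)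
    (hi : 0 ≤ i) (hi' : i < m) (hj : 0 ≤ j) (hj' : j < m)
    (hv : (j, z) ∉ (A : Set (ℤ × ℤ)) ∪ P) :
    R m n' ⟨(A : Set (ℤ × ℤ)) ∪ P, (i, y)⟩ ⟨(A : Set (ℤ × ℤ)) ∪ P, (j, z)⟩ := by
  rcases h.emp_or hy hy' hz hz' hyz with h1 | h1
  · exact (vert h1 hi hi' hj hj' (by omega) (by omega)).trans
      (hor hyz hv hj hj' (by omega) (by omega))
  · exact (hor hyz (fun hh => h1 _ hh rfl) hi hi' (by omega) (by omega)).trans
      (vert h1 hi hi' hj hj' (by omega) (by omega))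

theorem Cfg.ex_free (h : Cfg kl kr a w δ A P l r B) (hm : 2 ≤ m) {y : ℤ} (hy : a ≤ y)
    (hy' : y < a + w) : ∃ i : ℤ, 0 ≤ i ∧ i < m ∧ (i, y) ∉ (A : Set (ℤ × ℤ)) ∪ P := by
  by_cases h0 : ((0 : ℤ), y) ∈ (A : Set (ℤ × ℤ)) ∪ P
  · refine ⟨1, by omega, by omega, fun h1 => ?_⟩
    have k1 := h.inP h0 hy hy'
    have k2 := h.inP h1 hy hy'
    have := h.uni _ k1 _ k2 rfl
    exact absurd (congrArg Prod.fst this) (by simp)
  · exact ⟨0, le_rfl, by omega, h0⟩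

theorem Cfg.to_col (h : Cfg kl kr a w δ A P l r B) (hm : 2 ≤ m) (ha : 0 ≤ a) (haw : a + w ≤ n')
    {j z : ℤ} (hz : a ≤ z) (hz' : z < a + w) (hj : 0 ≤ j) (hj' : j < m)
    (he : ∀ c ∈ (A : Set (ℤ × ℤ)) ∪ P, c.2 ≠ z) (N : ℕ) :
    ∀ i y : ℤ, a ≤ y → y < a + w → 0 ≤ i → i < m → (y - z).natAbs = N →
      R m n' ⟨(A : Set (ℤ × ℤ)) ∪ P, (i, y)⟩ ⟨(A : Set (ℤ × ℤ)) ∪ P, (j, z)⟩ := by
  induction N with
  | zero =>
    intro i y hy hy' hi hi' hN
    have : y = z := by omega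
    subst this
    exact vert he hi hi' hj hj' (by omega) (by omega)
  | succ N ih =>
    intro i y hy hy' hi hi' hN
    rcases lt_trichotomy y z with h1 | h1 | h1
    · obtain ⟨i', h2, h3, h4⟩ := h.ex_free hm (y := y + 1) (by omega) (by omega)
      exact (h.adj ha haw hy hy' (by omega) (by omega) (Or.inl rfl) hi hi' h2 h3 h4).trans
        (ih i' (y + 1) (by omega) (by omega) h2 h3 (by omega))
    · omega
    · obtain ⟨i', h2, h3, h4⟩ := h.ex_free hm (y := y - 1) (by omega) (by omega)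
      exact (h.adj ha haw hy hy' (by omega) (by omega) (Or.inr (by omega)) hi hi' h2 h3 h4).trans
        (ih i' (y - 1) (by omega) (by omega) h2 h3 (by omega))

end

end MP82a8ee.Few
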