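import Pool.Agent.Lib.MP_82a8ee_lc.Few.Park

set_option autoImplicit false

namespace MP82a8ee.Few

open MP82a8ee

/-- the robot in the two boards -/
def Rob (a b w δ : ℤ) (p p' : ℤ × ℤ) : Prop :=
  (p = E (a + w) δ p' ∧ (p'.2 < a ∨ a + w ≤ p'.2)) ∨
    (a ≤ p.2 ∧ p.2 < b ∧ a ≤ p'.2 ∧ p'.2 < a + w)

/-- the positions of the two boards -/
def Rel (m n' kl kr : ℕ) (a b w δ : ℤ) (s s' : Position) : Prop :=
  ∃ (A : Finset (ℤ × ℤ)) (P : Set (ℤ × ℤ)) (l r : ℕ), Cfg kl kr a w δ A P l r s.blocks ∧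
    s'.blocks = (A : Set (ℤ × ℤ)) ∪ P ∧ s'.robot ∈ board m n' ∧ Rob a b w δ s.robot s'.robot

theorem move_cases {m n : ℕ} {d : Dir} {s t : Position} (h : Move m n d s t) :
    ∃ (B : Set (ℤ × ℤ)) (p : ℤ × ℤ) (B1 : Set (ℤ × ℤ)), s = ⟨B, p⟩ ∧ t = ⟨B1, p + d.vec⟩ ∧
      p + d.vec ∈ board m n ∧ ((p + d.vec ∉ B ∧ B1 = B) ∨
        (p + d.vec ∈ B ∧ p + d.vec + d.vec ∈ board m n ∧ p + d.vec + d.vec ∉ B ∧
          B1 = insert (p + d.vec + d.vec) (B \ {p + d.vec}))) := by
  cases h with
  | walk B p hb hf => exact ⟨B, p, B, rfl, rfl, hb, Or.inl ⟨hf, rfl⟩⟩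
  | push B p hb hB hb' hf => exact ⟨B, p, _, rfl, rfl, hb, Or.inr ⟨hB, hb', hf, rfl⟩⟩

theorem vec_cases (d : Dir) : ∃ u v : ℤ, d.vec = (u, v) ∧
    ((u = -1 ∧ v = 0) ∨ (u = 1 ∧ v = 0) ∨ (u = 0 ∧ v = -1 ∧ d = Dir.left) ∨
      (u = 0 ∧ v = 1 ∧ d = Dir.right)) := by
  cases d
  · exact ⟨-1, 0, rfl, by simp⟩
  · exact ⟨1, 0, rfl, by simp⟩
  · exact ⟨0, -1, rfl, by simp⟩
  · exact ⟨0, 1, rfl, by simp⟩

theorem union_erase {A : Finset (ℤ × ℤ)} {P : Set (ℤ × ℤ)} {x z : ℤ × ℤ} (hx : x ∉ P) :
    insert z (((A : Set (ℤ × ℤ)) ∪ P) \ {x}) = ((A.erase x : Finset (ℤ × ℤ)) : Set (ℤ × ℤ)) ∪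
      insert z P := by
  ext c
  simp only [Set.mem_insert_iff, Set.mem_sdiff, Set.mem_union, Set.mem_singleton_iff,
    Finset.coe_erase, Finset.mem_coe]
  constructor
  · rintro (h | ⟨h | h, h'⟩)
    · exact Or.inr (Or.inl h)
    · exact Or.inl ⟨h, h'⟩
    · exact Or.inr (Or.inr h)
  · rintro (⟨h, h'⟩ | h | h)
    · exact Or.inr ⟨Or.inl h, h'⟩
    · exact Or.inl h
    · exact Or.inr ⟨Or.inr h, fun hh => hx (hh ▸ h)⟩

theorem union_move {A : Finset (ℤ × ℤ)} {P : Set (ℤ × ℤ)} {x z : ℤ × ℤ} (hx : x ∉ P) :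
    insert z (((A : Set (ℤ × ℤ)) ∪ P) \ {x}) =
      ((insert z (A.erase x) : Finset (ℤ × ℤ)) : Set (ℤ × ℤ)) ∪ P := by
  rw [union_erase hx, Finset.coe_insert, Set.insert_union, Set.union_insert]

theorem card_move (A : Finset (ℤ × ℤ)) (x z : ℤ × ℤ) (π : ℤ × ℤ → Prop) [DecidablePred π]
    (hx : x ∈ A) (hπ : π z ↔ π x) :
    ((insert z (A.erase x)).filter π).card ≤ (A.filter π).card := by
  rw [Finset.filter_insert]
  by_cases h : π z
  · rw [if_pos h]
    have h1 : x ∈ A.filter π := Finset.mem_filter.2 ⟨hx, hπ.1 h⟩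
    have h2 : (A.erase x).filter π = (A.filter π).erase x := by
      ext c; simp only [Finset.mem_filter, Finset.mem_erase]; tauto
    rw [h2]
    have h3 := Finset.card_insert_le z ((A.filter π).erase x)
    have h4 := Finset.card_erase_add_one h1
    omega
  · rw [if_neg h]
    refine Finset.card_le_card ?_
    intro c hc
    rw [Finset.mem_filter] at hc ⊢
    exact ⟨Finset.mem_of_mem_erase hc.1, hc.2⟩

theorem card_erase' (A : Finset (ℤ × ℤ)) (x : ℤ × ℤ) (π : ℤ × ℤ → Prop) [DecidablePred π]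
    (hx : x ∈ A) : (π x → ((A.erase x).filter π).card + 1 = (A.filter π).card) ∧
      (¬ π x → ((A.erase x).filter π).card = (A.filter π).card) := by
  have h2 : (A.erase x).filter π = (A.filter π).erase x := by
    ext c; simp only [Finset.mem_filter, Finset.mem_erase]; tauto
  rw [h2]
  constructor
  · intro h
    exact Finset.card_erase_add_one (Finset.mem_filter.2 ⟨hx, h⟩)
  · intro h
    rw [Finset.erase_eq_of_notMem]
    intro hh
    exact h (Finset.mem_filter.1 hh).2

theorem sim {m n n' kl kr : ℕ} {a b w δ : ℤ} (hm : 2 ≤ m) (ha : 0 ≤ a) (hab : a < b)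
    (hbn : b ≤ n) (hδ : δ = b - a - w) (hw : 2 * ((kl : ℤ) + kr) + 1 ≤ w)
    (hn' : (n' : ℤ) = n - δ) {d : Dir} {s t s' : Position}
    (hs : Rel m n' kl kr a b w δ s s') (hmv : Move m n d s t) :
    ∃ t', R m n' s' t' ∧ Rel m n' kl kr a b w δ t t' := by
  obtain ⟨B, p, B1, rfl, rfl, hb, hB⟩ := move_cases hmv
  obtain ⟨A, P, l, r, hc, hbl, hro, hrob⟩ := hs
  obtain ⟨C, p'⟩ := s'
  have hbl' : C = (A : Set (ℤ × ℤ)) ∪ P := hbl
  subst hbl'
  have hc' : Cfg kl kr a w δ A P l r B := hc
  have hro' : p' ∈ board m n' := hro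
  have hrob' : Rob a b w δ p p' := hrob
  clear hc hbl hro hrob
  obtain ⟨x, y⟩ := p
  obtain ⟨x', y'⟩ := p'
  obtain ⟨u, v, huv, hd⟩ := vec_cases d
  have e1 : ((x, y) : ℤ × ℤ) + d.vec = (x + u, y + v) := by rw [huv]; rfl
  have e1' : ((x + u, y + v) : ℤ × ℤ) + d.vec = (x + u + u, y + v + v) := by rw [huv]; rfl
  rw [e1] at hb hB ⊢
  rw [e1'] at hB
  have hkeep : (∀ c ∈ A, E (a + w) δ c ≠ (x + u, y + v)) → Cfg kl kr a w δ A P l r B1 := by
    intro hh
    refine ⟨hc'.cl, hc'.cr, hc'.out, ?_, hc'.col, hc'.uni⟩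
    intro c hcA
    have h1 := hc'.sub c hcA
    rcases hB with ⟨_, rfl⟩ | ⟨_, _, _, rfl⟩
    · exact h1
    · exact Set.mem_insert_of_mem _ ⟨h1, hh c hcA⟩
  have hEinj : ∀ c c' : ℤ × ℤ, (c.2 < a ∨ a + w ≤ c.2) → (c'.2 < a ∨ a + w ≤ c'.2) →
      E (a + w) δ c = E (a + w) δ c' → c = c' := by
    intro c c' h1 h2 h3
    have h4 : (E (a + w) δ c).1 = (E (a + w) δ c').1 := congrArg Prod.fst h3
    have h5 : (if c.2 < a + w then c.2 else c.2 + δ) =
        (if c'.2 < a + w then c'.2 else c'.2 + δ) := congrArg Prod.snd h3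
    refine Prod.ext h4 ?_
    split_ifs at h5 <;> omega
  obtain ⟨b1, b2, b3, b4⟩ := hb
  obtain ⟨b5, b6, b7, b8⟩ := hro'
  simp only at b1 b2 b3 b4 b5 b6 b7 b8
  have hk0 : (0 : ℤ) ≤ kl := by omega
  have hk1 : (0 : ℤ) ≤ kr := by omega
  by_cases hin : a ≤ y + v ∧ y + v < b
  · -- the robot comes to the strip, or moves in the strip
    have hcf : Cfg kl kr a w δ A P l r B1 := hkeep (by
      intro c hcA heq
      have h1 : (if c.2 < a + w then c.2 else c.2 + δ) = y + v := congrArg Prod.snd heq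
      have h2 := hc'.out c hcA
      split_ifs at h1 <;> omega)
    rcases hrob' with ⟨h1, h2⟩ | ⟨h1, h2, h3, h4⟩
    · have h3 : x = x' := congrArg Prod.fst h1
      have h4 : y = (if y' < a + w then y' else y' + δ) := congrArg Prod.snd h1
      simp only at h2
      have h5 : y' + v = a ∨ y' + v = a + w - 1 := by
        split_ifs at h4 <;> omega
      have e2 : ((x', y') : ℤ × ℤ) + d.vec = (x' + u, y' + v) := by rw [huv]; rfl
      have h6 : (x' + u, y' + v) ∉ (A : Set (ℤ × ℤ)) ∪ P := by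
        intro h7
        have h8 := hc'.strip hw (hc'.inP h7 (by simp only; omega) (by simp only; omega))
        simp only at h8
        omega
      have h7 : Move m n' d ⟨(A : Set (ℤ × ℤ)) ∪ P, (x', y')⟩
          ⟨(A : Set (ℤ × ℤ)) ∪ P, (x', y') + d.vec⟩ :=
        Move.walk _ _ (by
          rw [e2]
          exact ⟨by simp only; omega, by simp only; omega, by simp only; omega,
            by simp only; omega⟩) (by rw [e2]; exact h6)
      rw [e2] at h7
      refine ⟨_, R.one h7, A, P, l, r, hcf, rfl, ⟨by simp only; omega, by simp only; omega,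
        by simp only; omega, by simp only; omega⟩, Or.inr ⟨hin.1, hin.2, ?_, ?_⟩⟩
      · simp only; omega
      · simp only; omega
    · exact ⟨_, R.refl _ _ _, A, P, l, r, hcf, rfl, ⟨b5, b6, b7, b8⟩,
        Or.inr ⟨hin.1, hin.2, h3, h4⟩⟩
  · -- the new cell of the robot is not in the strip
    obtain ⟨Y, hY⟩ : ∃ Y, Y = if y + v < a then y + v else y + v - δ := ⟨_, rfl⟩
    have hYo : (Y < a ∧ Y = y + v) ∨ (a + w ≤ Y ∧ Y = y + v - δ ∧ b ≤ y + v) := by
      split_ifs at hY <;> omega
    have hE : E (a + w) δ (x + u, Y) = (x + u, y + v) := by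
      apply Prod.ext
      · rfl
      · show (if Y < a + w then Y else Y + δ) = y + v
        split_ifs <;> omega
    have hbX : (x + u, Y) ∈ board m n' :=
      ⟨by simp only; omega, by simp only; omega, by simp only; omega, by simp only; omega⟩
    have hXP : (x + u, Y) ∉ P := by
      intro h
      have := hc'.strip hw h
      simp only at this
      omega
    have eq1 : ((x, Y - v) : ℤ × ℤ) + d.vec = (x + u, Y) := by
      rw [huv]
      apply Prod.ext
      · rfl
      · show Y - v + v = Y; ring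
    have hG : R m n' ⟨(A : Set (ℤ × ℤ)) ∪ P, (x', y')⟩ ⟨(A : Set (ℤ × ℤ)) ∪ P, (x, Y - v)⟩ := by
      rcases hrob' with ⟨h1, h2⟩ | ⟨h1, h2, h3, h4⟩
      · have h3 : x = x' := congrArg Prod.fst h1
        have h4 : y = (if y' < a + w then y' else y' + δ) := congrArg Prod.snd h1
        simp only at h2
        have h5 : y' = Y - v := by
          split_ifs at h4 <;> omega
        rw [← h3, ← h5]
        exact R.refl _ _ _
      · simp only at h1 h2 h3 h4
        refine hc'.to_col hm ha (by omega) (j := x) (z := Y - v) (by omega) (by omega) (by omega)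
          (by omega) ?_ (y' - (Y - v)).natAbs x' y' h3 h4 b5 b6 rfl
        intro c hcc hcz
        have := hc'.strip hw (hc'.inP hcc (by omega) (by omega))
        omega
    have hW : (x + u, Y) ∉ (A : Set (ℤ × ℤ)) ∪ P →
        R m n' ⟨(A : Set (ℤ × ℤ)) ∪ P, (x', y')⟩ ⟨(A : Set (ℤ × ℤ)) ∪ P, (x + u, Y)⟩ := by
      intro h
      have h7 : Move m n' d ⟨(A : Set (ℤ × ℤ)) ∪ P, (x, Y - v)⟩
          ⟨(A : Set (ℤ × ℤ)) ∪ P, (x, Y - v) + d.vec⟩ :=
        Move.walk _ _ (by rw [eq1]; exact hbX) (by rw [eq1]; exact h)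
      rw [eq1] at h7
      exact hG.trans (R.one h7)
    have hYo' : Y < a ∨ a + w ≤ Y := by omega
    have hRob : Rob a b w δ (x + u, y + v) (x + u, Y) := Or.inl ⟨hE.symm, hYo'⟩
    by_cases hXA : (x + u, Y) ∈ A
    swap
    · -- no active block: the robot walks
      refine ⟨_, hW ?_, A, P, l, r, hkeep ?_, rfl, hbX, hRob⟩
      · rintro (h | h)
        · exact hXA h
        · exact hXP h
      · intro c hcA heq
        rw [← hE] at heq
        exact hXA (hEinj _ _ (hc'.out c hcA) hYo' heq ▸ hcA)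
    rcases hB with ⟨h1, _⟩ | ⟨h1, h2, h3, rfl⟩
    · exact absurd (hE ▸ hc'.sub _ hXA) h1
    obtain ⟨c1, c2, c3, c4⟩ := h2
    simp only at c1 c2 c3 c4
    have hcl := hc'.cl
    have hcr := hc'.cr
    have hXC : (x + u, Y) ∈ (A : Set (ℤ × ℤ)) ∪ P := Or.inl hXA
    have hsubE : ∀ c ∈ A.erase (x + u, Y),
        E (a + w) δ c ∈ insert (x + u + u, y + v + v) (B \ {(x + u, y + v)}) := by
      intro c hcA
      rw [Finset.mem_erase] at hcA
      refine Set.mem_insert_of_mem _ ⟨hc'.sub c hcA.2, ?_⟩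
      intro heq
      have heq' : E (a + w) δ c = (x + u, y + v) := heq
      rw [← hE] at heq'
      exact hcA.1 (hEinj _ _ (hc'.out c hcA.2) hYo' heq')
    by_cases hyo : y + v + v < a ∨ b ≤ y + v + v
    · -- the block stays outside of the strip
      have hE2 : E (a + w) δ (x + u + u, Y + v) = (x + u + u, y + v + v) := by
        apply Prod.ext
        · rfl
        · show (if Y + v < a + w then Y + v else Y + v + δ) = y + v + v
          split_ifs <;> omega
      have eq2 : ((x + u, Y) : ℤ × ℤ) + d.vec = (x + u + u, Y + v) := by rw [huv]; rfl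
      have h7 : Move m n' d ⟨(A : Set (ℤ × ℤ)) ∪ P, (x, Y - v)⟩
          ⟨insert ((x, Y - v) + d.vec + d.vec) (((A : Set (ℤ × ℤ)) ∪ P) \ {(x, Y - v) + d.vec}),
            (x, Y - v) + d.vec⟩ := by
        refine Move.push _ _ ?_ ?_ ?_ ?_
        · rw [eq1]; exact hbX
        · rw [eq1]; exact hXC
        · rw [eq1, eq2]
          exact ⟨by simp only; omega, by simp only; omega, by simp only; omega,
            by simp only; omega⟩
        · rw [eq1, eq2]
          rintro (h | h)
          · exact h3 (hE2 ▸ hc'.sub _ h)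
          · have := hc'.strip hw h
            simp only at this
            omega
      rw [eq1, eq2] at h7
      rw [union_move hXP] at h7
      refine ⟨_, hG.trans (R.one h7), _, P, l, r, ⟨?_, ?_, ?_, ?_, hc'.col, hc'.uni⟩, rfl, hbX,
        hRob⟩
      · have := card_move A (x + u, Y) (x + u + u, Y + v) (fun c => c.2 < a) hXA
          (by show Y + v < a ↔ Y < a; omega)
        omega
      · have := card_move A (x + u, Y) (x + u + u, Y + v) (fun c => ¬ c.2 < a) hXA
          (by show ¬ Y + v < a ↔ ¬ Y < a; omega)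
        omega
      · intro c hcA
        rcases Finset.mem_insert.1 hcA with rfl | h
        · simp only; omega
        · exact hc'.out c (Finset.mem_of_mem_erase h)
      · intro c hcA
        rcases Finset.mem_insert.1 hcA with rfl | h
        · rw [hE2]; exact Set.mem_insert _ _
        · exact hsubE c h
    · -- the block enters the strip and is parked
      have park : ∀ (t : ℕ) (j : ℤ) (l1 r1 : ℕ), 1 ≤ t →
          ((A.erase (x + u, Y)).filter (fun c => c.2 < a)).card + l1 ≤ kl →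
          ((A.erase (x + u, Y)).filter (fun c => ¬ c.2 < a)).card + r1 ≤ kr →
          Y + (t : ℤ) * v = a + 2 * j - 1 → (kl : ℤ) - l1 < j → j ≤ kl + r1 → l ≤ l1 → r ≤ r1 →
          (j ≤ kl - l ∨ kl + r < j) →
          (∀ i : ℤ, 1 ≤ i → i ≤ t → a ≤ Y + i * v ∧ Y + i * v < a + w ∧
            ∀ j' : ℤ, (kl : ℤ) - l < j' → j' ≤ kl + r → Y + i * v ≠ a + 2 * j' - 1) →
          u = 0 → ∃ t', R m n' ⟨(A : Set (ℤ × ℤ)) ∪ P, (x', y')⟩ t' ∧ Rel m n' kl kr a b w δ
            ⟨insert (x + u + u, y + v + v) (B \ {(x + u, y + v)}), (x + u, y + v)⟩ t' := by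
        intro t j l1 r1 ht hcl1 hcr1 hj hj1 hj2 hl1 hr1 hj3 hfree hu
        have s1 : sh (x, Y - v) d 1 = (x + u, Y) := by rw [sh_one, eq1]
        have s2 : ∀ i : ℤ, sh (x, Y - v) d (1 + i) = (x, Y + i * v) := by
          intro i
          unfold sh
          rw [huv]
          apply Prod.ext
          · simp only; rw [hu]; ring
          · simp only; ring
        have hp := push_back (m := m) (n := n') (B := (A : Set (ℤ × ℤ)) ∪ P) (c := (x, Y - v))
          (d := d) t ht (by rw [s1]; exact hbX) (by rw [s1]; exact hXC) (by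
            intro i h5 h6
            rw [s2]
            obtain ⟨f1, f2, f3⟩ := hfree i h5 h6
            refine ⟨⟨by simp only; omega, by simp only; omega, by simp only; omega,
              by simp only; omega⟩, fun h7 => ?_⟩
            obtain ⟨j', g1, g2, g3⟩ := hc'.col _ (hc'.inP h7 f1 f2)
            exact f3 j' g1 g2 g3)
        have s3 : sh (x, Y - v) d ((t : ℤ) + 1) = (x, a + 2 * j - 1) := by
          rw [add_comm (t : ℤ) 1, s2, hj]
        rw [s1, s3, union_erase hXP] at hp
        refine ⟨_, hG.trans ⟨_, hp⟩, _, _, l1, r1, ⟨hcl1, hcr1, ?_, hsubE, ?_, ?_⟩, rfl, hbX,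
          hRob⟩
        · intro c hcA
          exact hc'.out c (Finset.mem_of_mem_erase hcA)
        · intro c hcP
          rcases hcP with rfl | hcP
          · exact ⟨j, hj1, hj2, rfl⟩
          · obtain ⟨j', g1, g2, g3⟩ := hc'.col c hcP
            exact ⟨j', by omega, by omega, g3⟩
        · intro c hcP c' hcP' heq
          rcases hcP with rfl | hcP
          · rcases hcP' with rfl | hcP'
            · rfl
            · exfalso
              obtain ⟨j', g1, g2, g3⟩ := hc'.col c' hcP'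
              simp only at heq
              omega
          · rcases hcP' with rfl | hcP'
            · exfalso
              obtain ⟨j', g1, g2, g3⟩ := hc'.col c hcP
              simp only at heq
              omega
            · exact hc'.uni c hcP c' hcP' heq
      obtain ⟨q1, q2⟩ := card_erase' A (x + u, Y) (fun c => c.2 < a) hXA
      obtain ⟨q3, q4⟩ := card_erase' A (x + u, Y) (fun c => ¬ c.2 < a) hXA
      simp only [not_not] at q1 q2 q3 q4
      rcases hd with ⟨h5, h6⟩ | ⟨h5, h6⟩ | ⟨h5, h6, _⟩ | ⟨h5, h6, _⟩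
      · exfalso; omega
      · exfalso; omega
      · -- to the left
        subst h6
        have hge : ¬ Y < a := by omega
        have z1 := q2 hge
        have z2 := q3 hge
        refine park (w - 2 * kl - 2 * r - 1).toNat (kl + r + 1) l (r + 1) (by omega) (by omega)
          (by omega) (by omega) (by omega) (by push_cast; omega) le_rfl (by omega) (by omega)
          ?_ h5
        intro i h7 h8
        exact ⟨by omega, by omega, fun j' h9 h10 => by omega⟩
      · -- to the right
        subst h6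
        have hlt : Y < a := by omega
        have z1 := q1 hlt
        have z2 := q4 hlt
        refine park (2 * (kl - l)) (kl - l) (l + 1) r (by omega) (by omega) (by omega)
          (by push_cast; omega) (by push_cast; omega) (by omega) (by omega) le_rfl (by omega)
          ?_ h5
        intro i h7 h8
        exact ⟨by omega, by push_cast at h8; omega, fun j' h9 h10 => by push_cast at h8; omega⟩

end MP82a8ee.Few
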